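import Mathlib

set_option autoImplicit false

namespace Pool.Agent.TH527.CS

open Cardinal Ordinal Set Order

noncomputable section

/-- all functions from `θ` to `ν` are coded by ordinals below `ν` when `ν ^ θ ≤ ν` -/
theorem exists_code (θ ν : Cardinal.{0}) (hν : 0 < ν) (h : ν ^ θ ≤ ν) :
    ∃ E : Ordinal.{0} → Ordinal.{0} → Ordinal.{0}, (∀ x ξ, E x ξ < ν.ord) ∧
      ∀ f : Ordinal.{0} → Ordinal.{0}, (∀ ξ < θ.ord, f ξ < ν.ord) →
        ∃ x < ν.ord, ∀ ξ < θ.ord, E x ξ = f ξ := by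
  classical
  have h1 : #(Iio θ.ord → Iio ν.ord) ≤ #(Iio ν.ord) := by
    rw [← Cardinal.power_def, Cardinal.mk_Iio_ordinal, Cardinal.mk_Iio_ordinal, card_ord, card_ord,
      ← Cardinal.lift_power]
    exact Cardinal.lift_le.2 h
  obtain ⟨Φ⟩ := h1
  have hν0 : (0 : Ordinal.{0}) < ν.ord := by
    rw [Cardinal.lt_ord]; simpa using hν
  refine ⟨fun x ξ => if hx : ∃ φ : Iio θ.ord → Iio ν.ord, ((Φ φ : Iio ν.ord) : Ordinal.{0}) = x then
      (if hξ : ξ < θ.ord then ((Classical.choose hx) ⟨ξ, hξ⟩ : Ordinal.{0}) else 0) else 0, ?_, ?_⟩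
  · intro x ξ
    dsimp only
    split_ifs with hx hξ
    · exact ((Classical.choose hx) ⟨ξ, hξ⟩).2
    · exact hν0
    · exact hν0
  · intro f hf
    let φ : Iio θ.ord → Iio ν.ord := fun ξ => ⟨f ξ, hf ξ ξ.2⟩
    refine ⟨(Φ φ : Iio ν.ord), (Φ φ).2, ?_⟩
    intro ξ hξ
    have hx : ∃ φ' : Iio θ.ord → Iio ν.ord, ((Φ φ' : Iio ν.ord) : Ordinal.{0}) = (Φ φ : Iio ν.ord) := ⟨φ, rfl⟩
    have h2 : Classical.choose hx = φ := by
      have := Classical.choose_spec hx
      exact Φ.injective (Subtype.ext this)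
    dsimp only
    rw [dif_pos hx, dif_pos hξ, h2]

/-- one step of Hausdorff's formula -/
theorem succ_power_le (θ ρ : Cardinal.{0}) (hρ : ℵ₀ ≤ ρ) (hθ : θ ≤ ρ) (h : ρ ^ θ ≤ succ ρ) :
    (succ ρ) ^ θ ≤ succ ρ := by
  classical
  have hreg : (succ ρ).IsRegular := isRegular_succ hρ
  -- every function is bounded
  have key : #(Iio θ.ord → Iio (succ ρ).ord) ≤ #(Σ α : Iio (succ ρ).ord, (Iio θ.ord → Iio (α : Ordinal.{0}))) := by
    have hb : ∀ φ : Iio θ.ord → Iio (succ ρ).ord, ∃ α : Iio (succ ρ).ord, ∀ ξ, (φ ξ : Ordinal.{0}) < α := by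
      intro φ
      have h3 : sSup ((fun ξ : Iio θ.ord => (φ ξ : Ordinal.{0})) '' univ) < (succ ρ).ord := by
        apply sSup_lt_of_lt_cof
        · rw [← Ordinal.lift_cof, hreg.cof_ord]
          have h4 : #((fun ξ : Iio θ.ord => (φ ξ : Ordinal.{0})) '' univ) ≤ #(Iio θ.ord) := by
            rw [image_univ]; exact mk_range_le
          refine h4.trans_lt ?_
          rw [Cardinal.mk_Iio_ordinal, card_ord, Cardinal.lift_lt]
          exact lt_succ_of_le hθ
        · rintro _ ⟨ξ, -, rfl⟩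
          exact (φ ξ).2
      have h5 : IsSuccLimit (succ ρ).ord := isSuccLimit_ord (hρ.trans (le_succ ρ))
      refine ⟨⟨Order.succ _, h5.succ_lt h3⟩, ?_⟩
      intro ξ
      have h6 : BddAbove ((fun ξ : Iio θ.ord => (φ ξ : Ordinal.{0})) '' univ) :=
        ⟨(succ ρ).ord, by rintro _ ⟨ξ, -, rfl⟩; exact (φ ξ).2.le⟩
      exact lt_succ_of_le (le_csSup h6 ⟨ξ, mem_univ _, rfl⟩)
    choose α hα using hb
    refine Cardinal.mk_le_of_injective (f := fun φ => ⟨α φ, fun ξ => ⟨φ ξ, hα φ ξ⟩⟩) ?_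
    intro φ ψ hφψ
    funext ξ
    apply Subtype.ext
    have h7 : ∀ (a b : Σ α : Iio (succ ρ).ord, (Iio θ.ord → Iio (α : Ordinal.{0}))), a = b →
        ((a.2 ξ : Iio _) : Ordinal.{0}) = ((b.2 ξ : Iio _) : Ordinal.{0}) := by
      rintro a b rfl; rfl
    exact h7 _ _ hφψ
  have h8 : #(Σ α : Iio (succ ρ).ord, (Iio θ.ord → Iio (α : Ordinal.{0}))) ≤ Cardinal.lift.{1} (succ ρ) := by
    rw [Cardinal.mk_sigma]
    refine (Cardinal.sum_le_sum _ (fun _ => Cardinal.lift.{1} (succ ρ)) ?_).trans ?_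
    · intro α
      rw [← Cardinal.power_def, Cardinal.mk_Iio_ordinal, Cardinal.mk_Iio_ordinal, card_ord, ← Cardinal.lift_power]
      apply Cardinal.lift_le.2
      have h9 : (α : Ordinal.{0}).card ≤ ρ := by
        have := (Cardinal.lt_ord.1 α.2)
        exact lt_succ_iff.1 this
      exact (Cardinal.power_le_power_right h9).trans h
    · rw [Cardinal.sum_const, Cardinal.mk_Iio_ordinal, card_ord]
      simp only [Cardinal.lift_id]
      rw [← Cardinal.lift_mul]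
      apply Cardinal.lift_le.2
      rw [Cardinal.mul_eq_self (hρ.trans (le_succ ρ))]
  have h10 := key.trans h8
  rw [← Cardinal.power_def, Cardinal.mk_Iio_ordinal, Cardinal.mk_Iio_ordinal, card_ord, card_ord,
      ← Cardinal.lift_power] at h10
  exact Cardinal.lift_le.1 h10

/-- the two instances used -/
theorem pow_two (κ : Cardinal.{0}) (hκ : ℵ₀ ≤ κ) (h : 2 ^ succ κ ≤ succ (succ κ)) :
    (succ (succ κ)) ^ (succ κ) ≤ succ (succ κ) := by
  have h1 : succ (succ κ) ≤ 2 ^ succ κ := succ_le_of_lt (Cardinal.cantor _)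
  calc (succ (succ κ)) ^ (succ κ) ≤ (2 ^ succ κ) ^ succ κ := Cardinal.power_le_power_right h1
    _ = 2 ^ (succ κ * succ κ) := by rw [← Cardinal.power_mul]
    _ = 2 ^ succ κ := by rw [Cardinal.mul_eq_self (hκ.trans (le_succ κ))]
    _ ≤ succ (succ κ) := h

theorem pow_three (κ : Cardinal.{0}) (hκ : ℵ₀ ≤ κ) (h : 2 ^ succ κ ≤ succ (succ κ)) :
    (succ (succ (succ κ))) ^ (succ κ) ≤ succ (succ (succ κ)) :=
  succ_power_le _ _ (hκ.trans ((le_succ κ).trans (le_succ _))) (le_succ _)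
    ((pow_two κ hκ h).trans (le_succ _))

end

end Pool.Agent.TH527.CS
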