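import Mathlib
import Pool.Agent.TH527.CS.A

set_option autoImplicit false

namespace Pool.Agent.TH527.CS

open Cardinal Ordinal Set Order

noncomputable section

/-- Chang sets -/
structure Ch (κ : Cardinal.{0}) (X : Set Ordinal.{0}) : Prop where
  sub : X ⊆ Iio (succ (succ (succ κ))).ord
  ge : Cardinal.lift.{1} (succ κ) ≤ #X
  le : #X ≤ Cardinal.lift.{1} (succ κ)
  le2 : #(X ∩ Iio (succ (succ κ)).ord : Set Ordinal.{0}) ≤ Cardinal.lift.{1} κ
  kap : Iio κ.ord ⊆ X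

/-- coding data -/
structure Cod (θ ν : Cardinal.{0}) (E : Ordinal.{0} → Ordinal.{0} → Ordinal.{0}) : Prop where
  lt : ∀ x ξ, E x ξ < ν.ord
  ex : ∀ f : Ordinal.{0} → Ordinal.{0}, (∀ ξ < θ.ord, f ξ < ν.ord) →
        ∃ x < ν.ord, ∀ ξ < θ.ord, E x ξ = f ξ

open Classical in
/-- the code of a function -/
def code (θ ν : Cardinal.{0}) (E : Ordinal.{0} → Ordinal.{0} → Ordinal.{0}) (f : Ordinal.{0} → Ordinal.{0}) :
    Ordinal.{0} :=
  if h : ∃ x < ν.ord, ∀ ξ < θ.ord, E x ξ = f ξ then Classical.choose h else 0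

variable {θ ν : Cardinal.{0}} {E : Ordinal.{0} → Ordinal.{0} → Ordinal.{0}}

lemma Cod.pos (h : Cod θ ν E) : (0 : Ordinal.{0}) < ν.ord := lt_of_le_of_lt zero_le (h.lt 0 0)

lemma Cod.code_lt (h : Cod θ ν E) (f : Ordinal.{0} → Ordinal.{0}) : code θ ν E f < ν.ord := by
  unfold code
  split_ifs with h1
  · exact (Classical.choose_spec h1).1
  · exact h.pos

lemma Cod.code_eq (h : Cod θ ν E) {f : Ordinal.{0} → Ordinal.{0}} (hf : ∀ ξ < θ.ord, f ξ < ν.ord)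
    {ξ : Ordinal.{0}} (hξ : ξ < θ.ord) : E (code θ ν E f) ξ = f ξ := by
  unfold code
  have h1 := h.ex f hf
  rw [dif_pos h1]
  exact (Classical.choose_spec h1).2 ξ hξ

/-- values of `F` stay below `ν` -/
def Good (ν : Cardinal.{0}) (F : List Ordinal.{0} → Ordinal.{0}) : Prop :=
  ∀ xs, (∀ a ∈ xs, a < ν.ord) → F xs < ν.ord

/-- lifting an operation to codes of functions -/
def Lf (θ ν : Cardinal.{0}) (E : Ordinal.{0} → Ordinal.{0} → Ordinal.{0})
    (F : List Ordinal.{0} → Ordinal.{0}) : List Ordinal.{0} → Ordinal.{0} :=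
  fun xs => code θ ν E (fun ξ => F (xs.map (fun x => E x ξ)))

open Classical in
/-- basic operations -/
def Bs (θ ν ν' : Cardinal.{0}) (E e : Ordinal.{0} → Ordinal.{0} → Ordinal.{0})
    (G : ℕ → List Ordinal.{0} → Ordinal.{0}) : ℕ → List Ordinal.{0} → Ordinal.{0}
  | 0 => fun xs => code θ ν E (fun _ => xs.headD 0)
  | 1 => fun _ => code θ ν E (fun ξ => ξ)
  | 2 => fun xs => code θ ν' e (fun ξ => if E (xs.headD 0) ξ < ν'.ord then E (xs.headD 0) ξ else 0)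
  | (k+3) => G k

/-- the family of operations -/
def Fam (θ ν ν' : Cardinal.{0}) (E e : Ordinal.{0} → Ordinal.{0} → Ordinal.{0})
    (G : ℕ → List Ordinal.{0} → Ordinal.{0}) (n k : ℕ) : List Ordinal.{0} → Ordinal.{0} :=
  (Lf θ ν E)^[n] (Bs θ ν ν' E e G k)

/-- closed under all operations -/
def Cl (H : ℕ → ℕ → List Ordinal.{0} → Ordinal.{0}) (X : Set Ordinal.{0}) : Prop :=
  ∀ n k xs, (∀ a ∈ xs, a ∈ X) → H n k xs ∈ X

variable {ν' : Cardinal.{0}} {e : Ordinal.{0} → Ordinal.{0} → Ordinal.{0}}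
  {G : ℕ → List Ordinal.{0} → Ordinal.{0}}

lemma Bs_good (hE : Cod θ ν E) (he : Cod θ ν' e) (hνν : ν' ≤ ν) (hG : ∀ k, Good ν (G k)) (k : ℕ) :
    Good ν (Bs θ ν ν' E e G k) := by
  intro xs hxs
  match k with
  | 0 => exact hE.code_lt _
  | 1 => exact hE.code_lt _
  | 2 => exact (he.code_lt _).trans_le (Cardinal.ord_le_ord.2 hνν)
  | (k+3) => exact hG k xs hxs

lemma Fam_succ (n k : ℕ) : Fam θ ν ν' E e G (n+1) k = Lf θ ν E (Fam θ ν ν' E e G n k) := by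
  unfold Fam
  rw [Function.iterate_succ_apply']

lemma Fam_good (hE : Cod θ ν E) (he : Cod θ ν' e) (hνν : ν' ≤ ν) (hG : ∀ k, Good ν (G k)) (n k : ℕ) :
    Good ν (Fam θ ν ν' E e G n k) := by
  cases n with
  | zero => exact Bs_good hE he hνν hG k
  | succ n =>
    rw [Fam_succ]
    intro xs _
    exact hE.code_lt _

/-- adjoining `δ` -/
def St (E : Ordinal.{0} → Ordinal.{0} → Ordinal.{0}) (δ : Ordinal.{0}) (X : Set Ordinal.{0}) : Set Ordinal.{0} :=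
  (fun x => E x δ) '' X

lemma St_sup (hE : Cod θ ν E) {X : Set Ordinal.{0}} (hX : X ⊆ Iio ν.ord)
    (hc : Cl (Fam θ ν ν' E e G) X) {δ : Ordinal.{0}} (hδ : δ < θ.ord) : X ⊆ St E δ X := by
  intro a ha
  refine ⟨Fam θ ν ν' E e G 0 0 [a], hc 0 0 [a] (by simpa using ha), ?_⟩
  show E (code θ ν E (fun _ => ([a] : List Ordinal.{0}).headD 0)) δ = a
  rw [hE.code_eq _ hδ]
  · rfl
  · intro ξ _
    exact hX ha

lemma St_mem (hE : Cod θ ν E) (hθ : θ ≤ ν) {X : Set Ordinal.{0}}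
    (hc : Cl (Fam θ ν ν' E e G) X) {δ : Ordinal.{0}} (hδ : δ < θ.ord) : δ ∈ St E δ X := by
  refine ⟨Fam θ ν ν' E e G 0 1 [], hc 0 1 [] (by simp), ?_⟩
  show E (code θ ν E (fun ξ => ξ)) δ = δ
  rw [hE.code_eq _ hδ]
  intro ξ hξ
  exact hξ.trans_le (Cardinal.ord_le_ord.2 hθ)

lemma exists_pre {E : Ordinal.{0} → Ordinal.{0} → Ordinal.{0}} {δ : Ordinal.{0}} {X : Set Ordinal.{0}} :
    ∀ ys : List Ordinal.{0}, (∀ a ∈ ys, a ∈ St E δ X) →
      ∃ xs : List Ordinal.{0}, (∀ a ∈ xs, a ∈ X) ∧ xs.map (fun x => E x δ) = ys := by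
  intro ys
  induction ys with
  | nil => intro _; exact ⟨[], by simp, rfl⟩
  | cons y ys ih =>
    intro h
    obtain ⟨xs, h1, h2⟩ := ih (fun a ha => h a (List.mem_cons_of_mem _ ha))
    obtain ⟨x, hx, hxy⟩ := h y (by simp)
    refine ⟨x :: xs, ?_, ?_⟩
    · intro a ha
      rcases List.mem_cons.1 ha with rfl | ha
      · exact hx
      · exact h1 a ha
    · simp only [List.map_cons, h2]
      exact congrArg (· :: ys) hxy

lemma St_closed (hE : Cod θ ν E) (he : Cod θ ν' e) (hνν : ν' ≤ ν) (hG : ∀ k, Good ν (G k))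
    {X : Set Ordinal.{0}} (hc : Cl (Fam θ ν ν' E e G) X) {δ : Ordinal.{0}} (hδ : δ < θ.ord) :
    Cl (Fam θ ν ν' E e G) (St E δ X) := by
  intro n k ys hys
  obtain ⟨xs, h1, h2⟩ := exists_pre ys hys
  refine ⟨Fam θ ν ν' E e G (n+1) k xs, hc (n+1) k xs h1, ?_⟩
  rw [Fam_succ]
  show E (code θ ν E (fun ξ => Fam θ ν ν' E e G n k (xs.map (fun x => E x ξ)))) δ = _
  rw [hE.code_eq _ hδ, h2]
  intro ξ _
  apply Fam_good hE he hνν hG
  intro a ha
  obtain ⟨x, _, rfl⟩ := List.mem_map.1 ha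
  exact hE.lt _ _

lemma St_sub (hE : Cod θ ν E) {X : Set Ordinal.{0}} {δ : Ordinal.{0}} : St E δ X ⊆ Iio ν.ord := by
  rintro _ ⟨x, _, rfl⟩
  exact hE.lt _ _

lemma St_card {X : Set Ordinal.{0}} {δ : Ordinal.{0}} : #(St E δ X) ≤ #X := mk_image_le

lemma St_card2 (he : Cod θ ν' e) {X : Set Ordinal.{0}}
    (hc : Cl (Fam θ ν ν' E e G) X) {δ : Ordinal.{0}} (hδ : δ < θ.ord) :
    #(St E δ X ∩ Iio ν'.ord : Set Ordinal.{0}) ≤ #(X ∩ Iio ν'.ord : Set Ordinal.{0}) := by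
  have h : (St E δ X ∩ Iio ν'.ord : Set Ordinal.{0}) ⊆ (fun i => e i δ) '' (X ∩ Iio ν'.ord) := by
    rintro _ ⟨⟨x, hx, rfl⟩, hlt⟩
    refine ⟨Fam θ ν ν' E e G 0 2 [x], ⟨hc 0 2 [x] (by simpa using hx), ?_⟩, ?_⟩
    · exact he.code_lt _
    · classical
      show e (code θ ν' e (fun ξ => if E (([x] : List Ordinal.{0}).headD 0) ξ < ν'.ord then
        E (([x] : List Ordinal.{0}).headD 0) ξ else 0)) δ = E x δ
      rw [he.code_eq _ hδ]
      · exact if_pos hlt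
      · intro ξ _
        split_ifs with h1
        · exact h1
        · exact he.pos
  exact (mk_le_mk_of_subset h).trans mk_image_le

end

end Pool.Agent.TH527.CS
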