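import Mathlib
import Pool.Agent.TH527.CS.B

set_option autoImplicit false

namespace Pool.Agent.TH527.CS

open Cardinal Ordinal Set Order

noncomputable section

/-- the next ordinal to adjoin -/
def Dl (κ : Cardinal.{0}) (Z : Set Ordinal.{0}) : Ordinal.{0} := Order.succ (sSup (Z ∩ Iio (succ κ).ord))

/-- one step -/
def Sp (κ : Cardinal.{0}) (E : Ordinal.{0} → Ordinal.{0} → Ordinal.{0}) (Z : Set Ordinal.{0}) :
    Set Ordinal.{0} := St E (Dl κ Z) Z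

/-- the iteration -/
def Y (κ : Cardinal.{0}) (E : Ordinal.{0} → Ordinal.{0} → Ordinal.{0}) (X0 : Set Ordinal.{0}) :
    Ordinal.{0} → Set Ordinal.{0} :=
  WellFounded.fix (C := fun _ => Set Ordinal.{0}) Ordinal.lt_wf
    (fun i rec => X0 ∪ ⋃ (j : Iio i), Sp κ E (rec j.1 j.2))

lemma Y_eq (κ : Cardinal.{0}) (E : Ordinal.{0} → Ordinal.{0} → Ordinal.{0}) (X0 : Set Ordinal.{0})
    (i : Ordinal.{0}) : Y κ E X0 i = X0 ∪ ⋃ (j : Iio i), Sp κ E (Y κ E X0 j.1) := by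
  unfold Y
  rw [WellFounded.fix_eq]

lemma Y_base (κ : Cardinal.{0}) (E : Ordinal.{0} → Ordinal.{0} → Ordinal.{0}) (X0 : Set Ordinal.{0})
    (i : Ordinal.{0}) : X0 ⊆ Y κ E X0 i := by
  rw [Y_eq]; exact subset_union_left

lemma Y_step (κ : Cardinal.{0}) (E : Ordinal.{0} → Ordinal.{0} → Ordinal.{0}) (X0 : Set Ordinal.{0})
    {i j : Ordinal.{0}} (hj : j < i) : Sp κ E (Y κ E X0 j) ⊆ Y κ E X0 i := by
  rw [Y_eq κ E X0 i]
  refine subset_union_of_subset_right ?_ _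
  exact subset_iUnion (fun j : Iio i => Sp κ E (Y κ E X0 j.1)) ⟨j, hj⟩

/-- bounds of the trace on `κ⁺` -/
lemma trace_bdd (κ : Cardinal.{0}) (Z : Set Ordinal.{0}) : BddAbove (Z ∩ Iio (succ κ).ord) :=
  ⟨(succ κ).ord, fun _ h => h.2.le⟩

lemma Dl_lt (κ : Cardinal.{0}) (hκ : ℵ₀ ≤ κ) {Z : Set Ordinal.{0}} (hZ : Ch κ Z) : Dl κ Z < (succ κ).ord := by
  have hreg : (succ κ).IsRegular := isRegular_succ hκ
  have h5 : IsSuccLimit (succ κ).ord := isSuccLimit_ord (hκ.trans (le_succ κ))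
  apply h5.succ_lt
  apply sSup_lt_of_lt_cof
  · rw [← Ordinal.lift_cof, hreg.cof_ord]
    have h1 : (Z ∩ Iio (succ κ).ord : Set Ordinal.{0}) ⊆ Z ∩ Iio (succ (succ κ)).ord := by
      intro a ha
      exact ⟨ha.1, lt_of_lt_of_le ha.2 (Cardinal.ord_le_ord.2 (le_succ _))⟩
    refine (mk_le_mk_of_subset h1).trans_lt (hZ.le2.trans_lt ?_)
    rw [Cardinal.lift_lt]
    exact lt_succ κ
  · intro i hi
    exact hi.2

lemma lt_Dl (κ : Cardinal.{0}) {Z : Set Ordinal.{0}} {a : Ordinal.{0}} (ha : a ∈ Z) (h : a < (succ κ).ord) :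
    a < Dl κ Z :=
  Order.lt_succ_of_le (le_csSup (trace_bdd κ Z) ⟨ha, h⟩)

section

variable {κ : Cardinal.{0}} {E e : Ordinal.{0} → Ordinal.{0} → Ordinal.{0}}
  {G : ℕ → List Ordinal.{0} → Ordinal.{0}} {X0 : Set Ordinal.{0}}

/-- the invariant -/
structure Inv (κ : Cardinal.{0}) (E e : Ordinal.{0} → Ordinal.{0} → Ordinal.{0})
    (G : ℕ → List Ordinal.{0} → Ordinal.{0}) (X : Set Ordinal.{0}) : Prop where
  ch : Ch κ X
  cl : Cl (Fam (succ κ) (succ (succ (succ κ))) (succ (succ κ)) E e G) X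

lemma le3 (κ : Cardinal.{0}) : succ κ ≤ succ (succ (succ κ)) := (le_succ _).trans (le_succ _)

lemma Inv.sub_Sp (hκ : ℵ₀ ≤ κ) (hE : Cod (succ κ) (succ (succ (succ κ))) E) {X : Set Ordinal.{0}}
    (h : Inv κ E e G X) : X ⊆ Sp κ E X :=
  St_sup hE h.ch.sub h.cl (Dl_lt κ hκ h.ch)

lemma Inv.Sp_cl (hκ : ℵ₀ ≤ κ) (hE : Cod (succ κ) (succ (succ (succ κ))) E) (he : Cod (succ κ) (succ (succ κ)) e)
    (hG : ∀ k, Good (succ (succ (succ κ))) (G k)) {X : Set Ordinal.{0}}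
    (h : Inv κ E e G X) : Cl (Fam (succ κ) (succ (succ (succ κ))) (succ (succ κ)) E e G) (Sp κ E X) :=
  St_closed hE he (le_succ _) hG h.cl (Dl_lt κ hκ h.ch)

lemma list_dir (κ : Cardinal.{0}) (E : Ordinal.{0} → Ordinal.{0} → Ordinal.{0}) (X0 : Set Ordinal.{0})
    {i : Ordinal.{0}} (hi : 0 < i) (h0 : X0 ⊆ Sp κ E (Y κ E X0 0))
    (hm : ∀ j < i, Y κ E X0 j ⊆ Sp κ E (Y κ E X0 j)) :
    ∀ xs : List Ordinal.{0}, (∀ a ∈ xs, a ∈ Y κ E X0 i) → ∃ j < i, ∀ a ∈ xs, a ∈ Sp κ E (Y κ E X0 j) := by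
  intro xs
  induction xs with
  | nil => intro _; exact ⟨0, hi, by simp⟩
  | cons x xs ih =>
    intro h
    obtain ⟨j, hj, h1⟩ := ih (fun a ha => h a (List.mem_cons_of_mem _ ha))
    have hx : ∃ j' < i, x ∈ Sp κ E (Y κ E X0 j') := by
      have h2 := h x (by simp)
      rw [Y_eq] at h2
      rcases h2 with h2 | h2
      · exact ⟨0, hi, h0 h2⟩
      · obtain ⟨j', h3⟩ := mem_iUnion.1 h2
        exact ⟨j'.1, j'.2, h3⟩
    obtain ⟨j', hj', h3⟩ := hx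
    have mono : ∀ {a b : Ordinal.{0}}, a ≤ b → b < i → Sp κ E (Y κ E X0 a) ⊆ Sp κ E (Y κ E X0 b) := by
      intro a b hab hb
      rcases hab.eq_or_lt with rfl | hab
      · exact subset_rfl
      · exact (Y_step κ E X0 hab).trans (hm b hb)
    rcases le_total j j' with hjj | hjj
    · refine ⟨j', hj', ?_⟩
      intro a ha
      rcases List.mem_cons.1 ha with rfl | ha
      · exact h3
      · exact mono hjj hj' (h1 a ha)
    · refine ⟨j, hj, ?_⟩
      intro a ha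
      rcases List.mem_cons.1 ha with rfl | ha
      · exact mono hjj hj h3
      · exact h1 a ha

lemma union_card (κ c : Cardinal.{0}) (hc : κ ≤ c) (hκ : ℵ₀ ≤ κ) {i : Ordinal.{0}} (hi : i ≤ κ.ord)
    (A : Set Ordinal.{0}) (hA : #A ≤ Cardinal.lift.{1} c) (S : Iio i → Set Ordinal.{0})
    (hS : ∀ j, #(S j) ≤ Cardinal.lift.{1} c) : #(A ∪ ⋃ j, S j : Set Ordinal.{0}) ≤ Cardinal.lift.{1} c := by
  have hc0 : ℵ₀ ≤ Cardinal.lift.{1} c := by
    rw [Cardinal.aleph0_le_lift]; exact hκ.trans hc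
  have h1 : #(⋃ j, S j : Set Ordinal.{0}) ≤ Cardinal.lift.{1} c := by
    refine (mk_iUnion_le_sum_mk).trans ?_
    refine (Cardinal.sum_le_sum _ (fun _ => Cardinal.lift.{1} c) hS).trans ?_
    rw [Cardinal.sum_const, Cardinal.mk_Iio_ordinal]
    simp only [Cardinal.lift_id]
    refine (mul_le_mul_left (b := Cardinal.lift.{1} i.card) (c := Cardinal.lift.{1} c) ?_ _).trans ?_
    · apply Cardinal.lift_le.2
      refine (Ordinal.card_le_card hi).trans ?_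
      rw [card_ord]; exact hc
    · rw [Cardinal.mul_eq_self hc0]
  refine (mk_union_le _ _).trans ?_
  refine (add_le_add hA h1).trans ?_
  rw [Cardinal.add_eq_self hc0]

theorem Y_inv (hκ : ℵ₀ ≤ κ) (hE : Cod (succ κ) (succ (succ (succ κ))) E) (he : Cod (succ κ) (succ (succ κ)) e)
    (hG : ∀ k, Good (succ (succ (succ κ))) (G k)) (h0 : Inv κ E e G X0) :
    ∀ i : Ordinal.{0}, i ≤ κ.ord → Inv κ E e G (Y κ E X0 i) := by
  intro i
  induction i using WellFoundedLT.induction with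
  | ind i ih =>
    intro hi
    have hj : ∀ j < i, Inv κ E e G (Y κ E X0 j) := fun j hj => ih j hj (hj.le.trans hi)
    refine ⟨⟨?_, ?_, ?_, ?_, ?_⟩, ?_⟩
    · rw [Y_eq]
      apply union_subset h0.ch.sub
      apply iUnion_subset
      intro j
      exact St_sub hE
    · exact h0.ch.ge.trans (mk_le_mk_of_subset (Y_base κ E X0 i))
    · rw [Y_eq]
      apply union_card κ (succ κ) (le_succ κ) hκ hi _ h0.ch.le
      intro j
      exact St_card.trans (hj j.1 j.2).ch.le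
    · rw [Y_eq, union_inter_distrib_right, iUnion_inter]
      apply union_card κ κ le_rfl hκ hi _ h0.ch.le2
      intro j
      exact (St_card2 he (hj j.1 j.2).cl (Dl_lt κ hκ (hj j.1 j.2).ch)).trans (hj j.1 j.2).ch.le2
    · exact h0.ch.kap.trans (Y_base κ E X0 i)
    · rcases (zero_le (a := i)).eq_or_lt with h | h
      · subst h
        have hY : Y κ E X0 0 = X0 := by
          rw [Y_eq]
          have : IsEmpty (Iio (0 : Ordinal.{0})) := ⟨fun j => absurd j.2 (by simp)⟩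
          rw [iUnion_of_empty, union_empty]
        rw [hY]; exact h0.cl
      · intro n k xs hxs
        obtain ⟨j, hji, hj2⟩ := list_dir κ E X0 h
          ((Y_base κ E X0 0).trans ((hj 0 h).sub_Sp hκ hE))
          (fun j hj' => (hj j hj').sub_Sp hκ hE) xs hxs
        exact Y_step κ E X0 hji ((hj j hji).Sp_cl hκ hE he hG n k xs hj2)

theorem Y_cof (hκ : ℵ₀ ≤ κ) (hE : Cod (succ κ) (succ (succ (succ κ))) E) (he : Cod (succ κ) (succ (succ κ)) e)
    (hG : ∀ k, Good (succ (succ (succ κ))) (G k)) (h0 : Inv κ E e G X0) {μ : Cardinal.{0}} (hμ : μ.IsRegular)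
    (hμκ : μ ≤ κ) : (sSup (Y κ E X0 μ.ord ∩ Iio (succ κ).ord)).cof = μ := by
  have hle : μ.ord ≤ κ.ord := Cardinal.ord_le_ord.2 hμκ
  have hInv : ∀ i : Ordinal.{0}, i ≤ μ.ord → Inv κ E e G (Y κ E X0 i) :=
    fun i hi => Y_inv hκ hE he hG h0 i (hi.trans hle)
  have hlim : IsSuccLimit μ.ord := isSuccLimit_ord hμ.aleph0_le
  let f : Iio μ.ord → Ordinal.{0} := fun j => Dl κ (Y κ E X0 j.1)
  have hmem : ∀ j i : Ordinal.{0}, j < i → i ≤ μ.ord → Dl κ (Y κ E X0 j) ∈ Y κ E X0 i := by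
    intro j i hji hi
    have hj := hInv j (hji.le.trans hi)
    exact Y_step κ E X0 hji (St_mem hE (le3 κ) hj.cl (Dl_lt κ hκ hj.ch))
  have hf : StrictMono f := by
    intro j i hji
    have hj := hInv j.1 j.2.le
    exact lt_Dl κ (hmem j.1 i.1 hji i.2.le) (Dl_lt κ hκ hj.ch)
  have hb : BddAbove (range f) := by
    refine ⟨(succ κ).ord, ?_⟩
    rintro _ ⟨j, rfl⟩
    exact (Dl_lt κ hκ (hInv j.1 j.2.le).ch).le
  have h0lt : (0 : Ordinal.{0}) < μ.ord := hμ.ord_pos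
  have heq : sSup (Y κ E X0 μ.ord ∩ Iio (succ κ).ord) = ⨆ j, f j := by
    apply le_antisymm
    · apply csSup_le'
      rintro a ⟨ha, ha2⟩
      rw [Y_eq] at ha
      have key : ∃ j : Iio μ.ord, a ∈ Y κ E X0 j.1 := by
        rcases ha with ha | ha
        · exact ⟨⟨0, h0lt⟩, Y_base κ E X0 0 ha⟩
        · obtain ⟨j, h3⟩ := mem_iUnion.1 ha
          exact ⟨⟨Order.succ j.1, hlim.succ_lt j.2⟩, Y_step κ E X0 (Order.lt_succ j.1) h3⟩
      obtain ⟨j, hj⟩ := key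
      exact (lt_Dl κ hj ha2).le.trans (le_ciSup hb j)
    · apply ciSup_le'
      intro j
      exact le_csSup (trace_bdd κ _) ⟨hmem j.1 μ.ord j.2 le_rfl, Dl_lt κ hκ (hInv j.1 j.2.le).ch⟩
  rw [heq, Ordinal.cof_iSup_Iio hf hlim.isSuccPrelimit, hμ.cof_ord]

end

/-- the core: list version -/
theorem core (κ : Cardinal.{0}) (hκ : ℵ₀ ≤ κ) (hp : 2 ^ succ κ ≤ succ (succ κ))
    (H : ∀ G : ℕ → List Ordinal.{0} → Ordinal.{0}, (∀ k, Good (succ (succ (succ κ))) (G k)) →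
      ∃ X, Ch κ X ∧ ∀ k xs, (∀ a ∈ xs, a ∈ X) → G k xs ∈ X)
    (G : ℕ → List Ordinal.{0} → Ordinal.{0}) (hG : ∀ k, Good (succ (succ (succ κ))) (G k))
    (μ : Cardinal.{0}) (hμ : μ.IsRegular) (hμκ : μ ≤ κ) :
    ∃ X, Ch κ X ∧ (∀ k xs, (∀ a ∈ xs, a ∈ X) → G k xs ∈ X) ∧
      (sSup (X ∩ Iio (succ κ).ord)).cof = μ := by
  have hpos : ∀ c : Cardinal.{0}, 0 < succ c := fun c => lt_of_le_of_lt zero_le (lt_succ c)
  obtain ⟨E, hE1, hE2⟩ := exists_code (succ κ) (succ (succ (succ κ))) (hpos _) (pow_three κ hκ hp)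
  obtain ⟨e, he1, he2⟩ := exists_code (succ κ) (succ (succ κ)) (hpos _) (pow_two κ hκ hp)
  have hE : Cod (succ κ) (succ (succ (succ κ))) E := ⟨hE1, hE2⟩
  have he : Cod (succ κ) (succ (succ κ)) e := ⟨he1, he2⟩
  obtain ⟨X0, hX0, hc⟩ := H (fun m => Fam (succ κ) (succ (succ (succ κ))) (succ (succ κ)) E e G m.unpair.1 m.unpair.2)
    (fun m => Fam_good hE he (le_succ _) hG _ _)
  have h0 : Inv κ E e G X0 := ⟨hX0, fun n k xs hxs => by
    have := hc (Nat.pair n k) xs hxs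
    simpa using this⟩
  have hfin := Y_inv hκ hE he hG h0 μ.ord (Cardinal.ord_le_ord.2 hμκ)
  refine ⟨Y κ E X0 μ.ord, hfin.ch, ?_, Y_cof hκ hE he hG h0 hμ hμκ⟩
  intro k xs hxs
  exact hfin.cl 0 (k+3) xs hxs

end

end Pool.Agent.TH527.CS
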