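import Mathlib
import Pool.Agent.TH527.CS.C

set_option autoImplicit false

namespace Pool.Agent.TH527.CS

open Cardinal Ordinal Set Order

noncomputable section

open Classical in
/-- countably many list functions coded into one function of finite sets -/
def fF (G : ℕ → List Ordinal.{0} → Ordinal.{0}) (s : Finset Ordinal.{0}) : Ordinal.{0} :=
  if s.filter (· < ω) = ∅ then ω + s.sup id
  else G ((Encodable.decode (α := ℕ × List ℕ) ((s.filter (· < ω)).card - 1)).getD (0, [])).1
    (((Encodable.decode (α := ℕ × List ℕ) ((s.filter (· < ω)).card - 1)).getD (0, [])).2.map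
      (fun j => (((s.filter (ω ≤ ·)).image (· - ω)).toList).getD j 0))

lemma omega_add_lt {c : Cardinal.{0}} (hc : ℵ₀ < c) {x : Ordinal.{0}} (hx : x < c.ord) : ω + x < c.ord := by
  rw [Cardinal.lt_ord] at hx ⊢
  rw [Ordinal.card_add, Ordinal.card_omega0]
  exact Cardinal.add_lt_of_lt hc.le hc hx

lemma fF_good {c : Cardinal.{0}} (hc : ℵ₀ < c) (G : ℕ → List Ordinal.{0} → Ordinal.{0})
    (hG : ∀ k, Good c (G k)) (s : Finset Ordinal.{0}) (hs : ∀ a ∈ s, a < c.ord) : fF G s < c.ord := by
  have h0 : (0 : Ordinal.{0}) < c.ord := by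
    rw [Cardinal.lt_ord]; simpa using (Cardinal.aleph0_pos.trans hc)
  unfold fF
  split_ifs with h
  · apply omega_add_lt hc
    rw [Finset.sup_lt_iff (by simpa using h0)]
    exact hs
  · apply hG
    intro a ha
    obtain ⟨j, _, rfl⟩ := List.mem_map.1 ha
    rw [List.getD_eq_getElem?_getD]
    rcases hj : (((s.filter (ω ≤ ·)).image (· - ω)).toList)[j]? with _ | b
    · simpa using h0
    · have hb := List.mem_of_getElem? hj
      rw [Finset.mem_toList, Finset.mem_image] at hb
      obtain ⟨a', ha', rfl⟩ := hb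
      simp only [Option.getD_some]
      exact (Ordinal.sub_le_self a' ω).trans_lt (hs a' (Finset.mem_filter.1 ha').1)

lemma fF_closed {κ : Cardinal.{0}} (hκ : ℵ₀ < κ) (G : ℕ → List Ordinal.{0} → Ordinal.{0})
    (X : Set Ordinal.{0}) (hk : Iio κ.ord ⊆ X) (hX : ∀ s : Finset Ordinal.{0}, (∀ a ∈ s, a ∈ X) → fF G s ∈ X)
    (k : ℕ) (xs : List Ordinal.{0}) (hxs : ∀ a ∈ xs, a ∈ X) : G k xs ∈ X := by
  classical
  have hωκ : ω < κ.ord := by rw [Cardinal.lt_ord, Ordinal.card_omega0]; exact hκ
  have hsh : ∀ x ∈ X, ω + x ∈ X := by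
    intro x hx
    rcases lt_or_ge x ω with h | h
    · exact hk (omega_add_lt hκ (h.trans hωκ))
    · have h1 := hX {x} (by simpa using hx)
      unfold fF at h1
      rw [if_pos (by rw [Finset.filter_singleton, if_neg (not_lt.2 h)]), Finset.sup_singleton] at h1
      exact h1
  set t := xs.toFinset with ht
  set L := t.toList with hL
  set w := xs.map (fun x => L.idxOf x) with hw
  set m := Encodable.encode ((k, w) : ℕ × List ℕ) with hm
  let s1 : Finset Ordinal.{0} := (Finset.range (m+1)).image (fun n : ℕ => (n : Ordinal.{0}))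
  let s2 : Finset Ordinal.{0} := t.image (ω + ·)
  have h1 : (s1 ∪ s2).filter (· < ω) = s1 := by
    ext a
    simp only [Finset.mem_filter, Finset.mem_union]
    constructor
    · rintro ⟨h | h, h2⟩
      · exact h
      · obtain ⟨x, _, rfl⟩ := Finset.mem_image.1 h
        exact absurd h2 (not_lt.2 (le_self_add))
    · intro h
      refine ⟨Or.inl h, ?_⟩
      obtain ⟨n, _, rfl⟩ := Finset.mem_image.1 h
      exact Ordinal.natCast_lt_omega0 n
  have h2 : (s1 ∪ s2).filter (ω ≤ ·) = s2 := by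
    ext a
    simp only [Finset.mem_filter, Finset.mem_union]
    constructor
    · rintro ⟨h | h, h2⟩
      · obtain ⟨n, _, rfl⟩ := Finset.mem_image.1 h
        exact absurd h2 (not_le.2 (Ordinal.natCast_lt_omega0 n))
      · exact h
    · intro h
      refine ⟨Or.inr h, ?_⟩
      obtain ⟨x, _, rfl⟩ := Finset.mem_image.1 h
      exact le_self_add
  have h3 : s1.card = m + 1 := by
    rw [Finset.card_image_of_injective _ (fun a b h => by exact_mod_cast h), Finset.card_range]
  have h4 : s2.image (· - ω) = t := by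
    rw [Finset.image_image]
    have : ((fun x : Ordinal.{0} => x - ω) ∘ fun x => ω + x) = id := by
      funext x
      simp
    rw [this, Finset.image_id]
  have hmem : ∀ a ∈ s1 ∪ s2, a ∈ X := by
    intro a ha
    rcases Finset.mem_union.1 ha with h | h
    · obtain ⟨n, _, rfl⟩ := Finset.mem_image.1 h
      exact hk ((Ordinal.natCast_lt_omega0 n).trans hωκ)
    · obtain ⟨x, hx, rfl⟩ := Finset.mem_image.1 h
      exact hsh x (hxs x (List.mem_toFinset.1 hx))
  have h5 := hX (s1 ∪ s2) hmem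
  unfold fF at h5
  rw [h1, h2, h3, h4] at h5
  have h6 : s1 ≠ ∅ := by
    intro h; rw [h] at h3; simp at h3
  rw [if_neg h6, Nat.add_sub_cancel, hm, Encodable.encodek] at h5
  simp only [Option.getD_some] at h5
  have h7 : w.map (fun j => t.toList.getD j 0) = xs := by
    rw [hw, List.map_map]
    have : ∀ x ∈ xs, ((fun j => t.toList.getD j 0) ∘ fun x => L.idxOf x) x = x := by
      intro x hx
      have hxL : x ∈ L := by rw [hL, Finset.mem_toList]; exact List.mem_toFinset.2 hx
      have h8 : L.idxOf x < L.length := List.idxOf_lt_length_of_mem hxL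
      show L.getD (L.idxOf x) 0 = x
      rw [List.getD_eq_getElem _ _ h8]
      exact List.getElem_idxOf h8
    conv_rhs => rw [← List.map_id xs]
    exact List.map_congr_left this
  rw [h7] at h5
  exact h5

/-- the theorem in the form of the frozen statement -/
theorem main (κ : Cardinal.{0}) (hκ : ℵ₀ < κ) (hp : 2 ^ succ κ ≤ succ (succ κ))
    (H : ∀ f : Finset Ordinal.{0} → Ordinal.{0},
        (∀ s : Finset Ordinal.{0}, (∀ a ∈ s, a < (succ (succ (succ κ))).ord) →
            f s < (succ (succ (succ κ))).ord) →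
        ∃ X : Set Ordinal.{0},
          X ⊆ Set.Iio (succ (succ (succ κ))).ord ∧
          (∀ s : Finset Ordinal.{0}, (∀ a ∈ s, a ∈ X) → f s ∈ X) ∧
          Cardinal.mk X = Cardinal.lift.{1} (succ κ) ∧
          Cardinal.mk ↥(X ∩ Set.Iio (succ (succ κ)).ord) = Cardinal.lift.{1} κ ∧
          Set.Iio κ.ord ⊆ X)
    (μ : Cardinal.{0}) (hμ : μ.IsRegular) (hμκ : μ ≤ κ)
    (f : Finset Ordinal.{0} → Ordinal.{0})
    (hf : ∀ s : Finset Ordinal.{0}, (∀ a ∈ s, a < (succ (succ (succ κ))).ord) →
            f s < (succ (succ (succ κ))).ord) :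
        ∃ X : Set Ordinal.{0},
          X ⊆ Set.Iio (succ (succ (succ κ))).ord ∧
          (∀ s : Finset Ordinal.{0}, (∀ a ∈ s, a ∈ X) → f s ∈ X) ∧
          Cardinal.mk X = Cardinal.lift.{1} (succ κ) ∧
          Cardinal.mk ↥(X ∩ Set.Iio (succ (succ κ)).ord) = Cardinal.lift.{1} κ ∧
          Set.Iio κ.ord ⊆ X ∧
          (sSup (X ∩ Set.Iio (succ κ).ord)).cof = μ := by
  classical
  have h3 : ℵ₀ < succ (succ (succ κ)) := hκ.trans ((lt_succ κ).trans ((lt_succ _).trans (lt_succ _)))
  obtain ⟨X, hX, hcl, hcof⟩ := core κ hκ.le hp (fun G hG => by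
      obtain ⟨X, h1, h2, h4, h5, h6⟩ := H (fF G) (fF_good h3 G hG)
      exact ⟨X, ⟨h1, h4.ge, h4.le, h5.le, h6⟩, fun k xs hxs => fF_closed hκ G X h6 h2 k xs hxs⟩)
    (fun _ xs => f xs.toFinset) (fun _ xs hxs => hf _ (fun a ha => hxs a (List.mem_toFinset.1 ha))) μ hμ hμκ
  refine ⟨X, hX.sub, ?_, le_antisymm hX.le hX.ge, le_antisymm hX.le2 ?_, hX.kap, hcof⟩
  · intro s hs
    have := hcl 0 s.toList (fun a ha => hs a (Finset.mem_toList.1 ha))
    simpa using this
  · have h7 : Iio κ.ord ⊆ X ∩ Iio (succ (succ κ)).ord := by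
      intro a ha
      exact ⟨hX.kap ha, lt_of_lt_of_le ha (Cardinal.ord_le_ord.2 ((le_succ _).trans (le_succ _)))⟩
    have h8 := mk_le_mk_of_subset h7
    rwa [Cardinal.mk_Iio_ordinal, card_ord] at h8

end

end Pool.Agent.TH527.CS
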