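import Mathlib
import Pool.Agent.TH527.CS.C

set_option autoImplicit false

namespace Pool.Agent.TH527.CS

open Cardinal Ordinal Set Order

noncomputable section

/-- a system of operations with evaluation -/
structure Sys (κ : Cardinal.{0}) (C : Ordinal.{0} → Ordinal.{0} → Set Ordinal.{0})
    (E : Ordinal.{0} → Ordinal.{0} → Ordinal.{0}) (O : ℕ → List Ordinal.{0} → Ordinal.{0}) : Prop where
  lt : ∀ x ξ, ξ < (succ κ).ord → E x ξ < (succ (succ (succ κ))).ord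
  cst : ∃ k, ∀ a < (succ (succ (succ κ))).ord, ∀ ξ < (succ κ).ord, E (O k [a]) ξ = a
  var : ∃ k, ∀ ξ < (succ κ).ord, E (O k []) ξ = ξ
  app : ∀ k, ∃ k', ∀ xs, ∀ ξ < (succ κ).ord, E (O k' xs) ξ = O k (xs.map (fun x => E x ξ))
  cov : ∀ x, ∃ k, O k [x] < (succ (succ κ)).ord ∧
    ∀ ξ < (succ κ).ord, E x ξ < (succ (succ κ)).ord → E x ξ ∈ C (O k [x]) ξ

/-- closed under a family -/
def Cl1 (O : ℕ → List Ordinal.{0} → Ordinal.{0}) (X : Set Ordinal.{0}) : Prop :=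
  ∀ k xs, (∀ a ∈ xs, a ∈ X) → O k xs ∈ X

/-- smallness of the covering sets -/
def Sm (κ : Cardinal.{0}) (C : Ordinal.{0} → Ordinal.{0} → Set Ordinal.{0}) : Prop :=
  ∀ i ξ, ξ < (succ κ).ord → #(C i ξ) ≤ Cardinal.lift.{1} κ

/-- the invariant -/
structure Iv (κ : Cardinal.{0}) (O : ℕ → List Ordinal.{0} → Ordinal.{0}) (X : Set Ordinal.{0}) : Prop where
  ch : Ch κ X
  cl : Cl1 O X

section

variable {κ : Cardinal.{0}} {C : Ordinal.{0} → Ordinal.{0} → Set Ordinal.{0}}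
  {E : Ordinal.{0} → Ordinal.{0} → Ordinal.{0}} {O : ℕ → List Ordinal.{0} → Ordinal.{0}}
  {X X0 : Set Ordinal.{0}}

lemma Iv.sub_Sp (hκ : ℵ₀ ≤ κ) (hS : Sys κ C E O) (h : Iv κ O X) : X ⊆ Sp κ E X := by
  intro a ha
  obtain ⟨k, hk⟩ := hS.cst
  exact ⟨O k [a], h.cl k [a] (by simpa using ha), hk a (h.ch.sub ha) _ (Dl_lt κ hκ h.ch)⟩

lemma Iv.Dl_mem (hκ : ℵ₀ ≤ κ) (hS : Sys κ C E O) (h : Iv κ O X) : Dl κ X ∈ Sp κ E X := by
  obtain ⟨k, hk⟩ := hS.var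
  exact ⟨O k [], h.cl k [] (by simp), hk _ (Dl_lt κ hκ h.ch)⟩

lemma Iv.Sp_cl (hκ : ℵ₀ ≤ κ) (hS : Sys κ C E O) (h : Iv κ O X) : Cl1 O (Sp κ E X) := by
  intro k ys hys
  obtain ⟨xs, h1, h2⟩ := exists_pre ys hys
  obtain ⟨k', hk'⟩ := hS.app k
  refine ⟨O k' xs, h.cl k' xs h1, ?_⟩
  show E (O k' xs) (Dl κ X) = _
  rw [hk' xs _ (Dl_lt κ hκ h.ch), h2]

lemma Iv.Sp_card2 (hκ : ℵ₀ ≤ κ) (hC : Sm κ C) (hS : Sys κ C E O) (h : Iv κ O X) :
    #(Sp κ E X ∩ Iio (succ (succ κ)).ord : Set Ordinal.{0}) ≤ Cardinal.lift.{1} κ := by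
  have hκ1 : ℵ₀ ≤ Cardinal.lift.{1} κ := by rw [Cardinal.aleph0_le_lift]; exact hκ
  have h1 : (Sp κ E X ∩ Iio (succ (succ κ)).ord : Set Ordinal.{0}) ⊆
      ⋃ i : (X ∩ Iio (succ (succ κ)).ord : Set Ordinal.{0}), C i.1 (Dl κ X) := by
    rintro _ ⟨⟨x, hx, rfl⟩, hlt⟩
    obtain ⟨k, hk1, hk2⟩ := hS.cov x
    exact mem_iUnion.2 ⟨⟨O k [x], h.cl k [x] (by simpa using hx), hk1⟩, hk2 _ (Dl_lt κ hκ h.ch) hlt⟩
  refine (mk_le_mk_of_subset h1).trans ((mk_iUnion_le_sum_mk).trans ?_)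
  refine (Cardinal.sum_le_sum _ (fun _ => Cardinal.lift.{1} κ)
    (fun i : (X ∩ Iio (succ (succ κ)).ord : Set Ordinal.{0}) => hC i.1 _ (Dl_lt κ hκ h.ch))).trans ?_
  rw [Cardinal.sum_const]
  simp only [Cardinal.lift_id]
  exact (mul_le_mul_left h.ch.le2 _).trans (Cardinal.mul_eq_self hκ1).le

lemma Sp_sub (hκ : ℵ₀ ≤ κ) (hS : Sys κ C E O) (h : Ch κ X) : Sp κ E X ⊆ Iio (succ (succ (succ κ))).ord := by
  rintro _ ⟨x, _, rfl⟩
  exact hS.lt _ _ (Dl_lt κ hκ h)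

theorem Y_iv (hκ : ℵ₀ ≤ κ) (hC : Sm κ C) (hS : Sys κ C E O) (h0 : Iv κ O X0) :
    ∀ i : Ordinal.{0}, i ≤ κ.ord → Iv κ O (Y κ E X0 i) := by
  intro i
  induction i using WellFoundedLT.induction with
  | ind i ih =>
    intro hi
    have hj : ∀ j < i, Iv κ O (Y κ E X0 j) := fun j hj => ih j hj (hj.le.trans hi)
    refine ⟨⟨?_, ?_, ?_, ?_, ?_⟩, ?_⟩
    · rw [Y_eq]
      apply union_subset h0.ch.sub
      apply iUnion_subset
      intro j
      exact Sp_sub hκ hS (hj j.1 j.2).ch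
    · exact h0.ch.ge.trans (mk_le_mk_of_subset (Y_base κ E X0 i))
    · rw [Y_eq]
      apply union_card κ (succ κ) (le_succ κ) hκ hi _ h0.ch.le
      intro j
      exact St_card.trans (hj j.1 j.2).ch.le
    · rw [Y_eq, union_inter_distrib_right, iUnion_inter]
      apply union_card κ κ le_rfl hκ hi _ h0.ch.le2
      intro j
      exact (hj j.1 j.2).Sp_card2 hκ hC hS
    · exact h0.ch.kap.trans (Y_base κ E X0 i)
    · rcases (zero_le (a := i)).eq_or_lt with h | h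
      · subst h
        have hY : Y κ E X0 0 = X0 := by
          rw [Y_eq]
          have : IsEmpty (Iio (0 : Ordinal.{0})) := ⟨fun j => absurd j.2 (by simp)⟩
          rw [iUnion_of_empty, union_empty]
        rw [hY]; exact h0.cl
      · intro k xs hxs
        obtain ⟨j, hji, hj2⟩ := list_dir κ E X0 h
          ((Y_base κ E X0 0).trans ((hj 0 h).sub_Sp hκ hS))
          (fun j hj' => (hj j hj').sub_Sp hκ hS) xs hxs
        exact Y_step κ E X0 hji ((hj j hji).Sp_cl hκ hS k xs hj2)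

theorem Y_cof1 (hκ : ℵ₀ ≤ κ) (hC : Sm κ C) (hS : Sys κ C E O) (h0 : Iv κ O X0) {μ : Cardinal.{0}}
    (hμ : μ.IsRegular) (hμκ : μ ≤ κ) : (sSup (Y κ E X0 μ.ord ∩ Iio (succ κ).ord)).cof = μ := by
  have hle : μ.ord ≤ κ.ord := Cardinal.ord_le_ord.2 hμκ
  have hInv : ∀ i : Ordinal.{0}, i ≤ μ.ord → Iv κ O (Y κ E X0 i) :=
    fun i hi => Y_iv hκ hC hS h0 i (hi.trans hle)
  have hlim : IsSuccLimit μ.ord := isSuccLimit_ord hμ.aleph0_le
  let f : Iio μ.ord → Ordinal.{0} := fun j => Dl κ (Y κ E X0 j.1)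
  have hmem : ∀ j i : Ordinal.{0}, j < i → i ≤ μ.ord → Dl κ (Y κ E X0 j) ∈ Y κ E X0 i := by
    intro j i hji hi
    exact Y_step κ E X0 hji ((hInv j (hji.le.trans hi)).Dl_mem hκ hS)
  have hf : StrictMono f := by
    intro j i hji
    have hj := hInv j.1 j.2.le
    exact lt_Dl κ (hmem j.1 i.1 hji i.2.le) (Dl_lt κ hκ hj.ch)
  have hb : BddAbove (range f) := by
    refine ⟨(succ κ).ord, ?_⟩
    rintro _ ⟨j, rfl⟩
    exact (Dl_lt κ hκ (hInv j.1 j.2.le).ch).le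
  have h0lt : (0 : Ordinal.{0}) < μ.ord := hμ.ord_pos
  have heq : sSup (Y κ E X0 μ.ord ∩ Iio (succ κ).ord) = ⨆ j, f j := by
    apply le_antisymm
    · apply csSup_le'
      rintro a ⟨ha, ha2⟩
      rw [Y_eq] at ha
      have key : ∃ j : Iio μ.ord, a ∈ Y κ E X0 j.1 := by
        rcases ha with ha | ha
        · exact ⟨⟨0, h0lt⟩, Y_base κ E X0 0 ha⟩
        · obtain ⟨j, h3⟩ := mem_iUnion.1 ha
          exact ⟨⟨Order.succ j.1, hlim.succ_lt j.2⟩, Y_step κ E X0 (Order.lt_succ j.1) h3⟩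
      obtain ⟨j, hj⟩ := key
      exact (lt_Dl κ hj ha2).le.trans (le_ciSup hb j)
    · apply ciSup_le'
      intro j
      exact le_csSup (trace_bdd κ _) ⟨hmem j.1 μ.ord j.2 le_rfl, Dl_lt κ hκ (hInv j.1 j.2.le).ch⟩
  rw [heq, Ordinal.cof_iSup_Iio hf hlim.isSuccPrelimit, hμ.cof_ord]

end

/-! ### terms -/

/-- shapes of terms -/
abbrev Shp (κ : Cardinal.{0}) : Type 1 := (Iio (succ (succ (succ κ))).ord) ⊕ (Unit ⊕ (ℕ × ℕ))

/-- arities -/
def Ar (κ : Cardinal.{0}) : Shp κ → Type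
  | Sum.inl _ => Empty
  | Sum.inr (Sum.inl _) => Empty
  | Sum.inr (Sum.inr p) => Fin p.2

instance (κ : Cardinal.{0}) (s : Shp κ) : Finite (Ar κ s) := by
  rcases s with _ | _ | p
  · exact inferInstanceAs (Finite Empty)
  · exact inferInstanceAs (Finite Empty)
  · exact inferInstanceAs (Finite (Fin p.2))

/-- terms -/
abbrev Tm (κ : Cardinal.{0}) : Type 1 := WType (Ar κ)

/-- evaluation of terms -/
def ev {κ : Cardinal.{0}} (O : ℕ → List Ordinal.{0} → Ordinal.{0}) (ξ : Ordinal.{0}) : Tm κ → Ordinal.{0}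
  | WType.mk (Sum.inl a) _ => a.1
  | WType.mk (Sum.inr (Sum.inl _)) _ => ξ
  | WType.mk (Sum.inr (Sum.inr p)) f => O p.1 (List.ofFn (fun j : Fin p.2 => ev O ξ (f j)))

/-- constant term -/
def tc {κ : Cardinal.{0}} (a : Iio (succ (succ (succ κ))).ord) : Tm κ := WType.mk (Sum.inl a) Empty.elim
/-- variable -/
def tv {κ : Cardinal.{0}} : Tm κ := WType.mk (Sum.inr (Sum.inl ())) Empty.elim
/-- application -/
def ta {κ : Cardinal.{0}} (k l : ℕ) (f : Fin l → Tm κ) : Tm κ := WType.mk (Sum.inr (Sum.inr (k, l))) f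

lemma tm_card (κ : Cardinal.{0}) (hκ : ℵ₀ ≤ κ) : #(Tm κ) ≤ #(Iio (succ (succ (succ κ))).ord) := by
  have h3 : ℵ₀ ≤ succ (succ (succ κ)) := hκ.trans ((le_succ κ).trans ((le_succ _).trans (le_succ _)))
  have h4 : ℵ₀ ≤ Cardinal.lift.{1} (succ (succ (succ κ))) := by rw [Cardinal.aleph0_le_lift]; exact h3
  refine (WType.cardinalMk_le_max_aleph0_of_finite').trans ?_
  apply max_le
  · rw [Cardinal.mk_sum, Cardinal.mk_Iio_ordinal, card_ord]
    rw [Cardinal.lift_uzero, Cardinal.lift_uzero]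
    have h5 : Cardinal.lift.{1} #(Unit ⊕ (ℕ × ℕ)) ≤ Cardinal.lift.{1} (succ (succ (succ κ))) := by
      refine le_trans ?_ h4
      rw [Cardinal.lift_le_aleph0]
      exact Cardinal.mk_le_aleph0
    exact (add_le_add (le_refl _) h5).trans (Cardinal.add_eq_self h4).le
  · rw [Cardinal.mk_Iio_ordinal, card_ord]
    exact h4

end

end Pool.Agent.TH527.CS
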