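import Mathlib
import Pool.Agent.TH527.CS.E

set_option autoImplicit false

namespace Pool.Agent.TH527.CS

open Cardinal Ordinal Set Order

noncomputable section

section

variable (κ : Cardinal.{0}) (Φ : Tm κ ↪ Iio (succ (succ (succ κ))).ord)
  (C : Ordinal.{0} → Ordinal.{0} → Set Ordinal.{0}) (G : ℕ → List Ordinal.{0} → Ordinal.{0})

/-- code of a term -/
def enc (t : Tm κ) : Ordinal.{0} := (Φ t : Iio (succ (succ (succ κ))).ord).1

open Classical in
/-- decoding -/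
def dec (x : Ordinal.{0}) : Tm κ := if h : ∃ t, enc κ Φ t = x then Classical.choose h else tv

lemma dec_enc (t : Tm κ) : dec κ Φ (enc κ Φ t) = t := by
  unfold dec
  have h : ∃ t', enc κ Φ t' = enc κ Φ t := ⟨t, rfl⟩
  rw [dif_pos h]
  exact Φ.injective (Subtype.ext (Classical.choose_spec h))

lemma enc_lt (t : Tm κ) : enc κ Φ t < (succ (succ (succ κ))).ord := (Φ t).2

open Classical in
/-- clipping to `κ⁺⁺⁺` -/
def clip3 (a : Ordinal.{0}) : Tm κ :=
  if h : a < (succ (succ (succ κ))).ord then tc ⟨a, h⟩ else tv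

open Classical in
/-- code for covering -/
def ccode (f : Ordinal.{0} → Ordinal.{0}) : Ordinal.{0} :=
  if h : ∃ i < (succ (succ κ)).ord, ∀ ξ < (succ κ).ord, f ξ ∈ C i ξ then Classical.choose h else 0

/-- the operations not using evaluation -/
def cm (a b : ℕ) : List Ordinal.{0} → Ordinal.{0} :=
  match a with
  | 0 => fun _ => 0
  | 1 => fun xs => enc κ Φ (clip3 κ (xs.headD 0))
  | 2 => fun _ => enc κ Φ tv
  | 3 => G b
  | _ => fun xs => enc κ Φ (ta b xs.length (fun j => dec κ Φ (xs.get j)))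

/-- interpretation with given hats -/
def In (h : ℕ → List Ordinal.{0} → Ordinal.{0}) (k : ℕ) : List Ordinal.{0} → Ordinal.{0} :=
  if k.unpair.2.unpair.1 = 0 then h k.unpair.1 else cm κ Φ G k.unpair.2.unpair.1 k.unpair.2.unpair.2

open Classical in
/-- the hat operations -/
def hat (n : ℕ) : List Ordinal.{0} → Ordinal.{0} := fun xs =>
  ccode κ C (fun ξ =>
    if ev (In κ Φ G (fun m => if _h : m < n then hat m else fun _ => 0)) ξ (dec κ Φ (xs.headD 0)) <
      (succ (succ κ)).ord then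
      ev (In κ Φ G (fun m => if _h : m < n then hat m else fun _ => 0)) ξ (dec κ Φ (xs.headD 0)) else 0)
termination_by n
decreasing_by all_goals assumption

/-- truncated hats -/
def hl (n m : ℕ) : List Ordinal.{0} → Ordinal.{0} := if _h : m < n then hat κ Φ C G m else fun _ => 0

/-- all operations -/
def OO (k : ℕ) : List Ordinal.{0} → Ordinal.{0} := In κ Φ G (hat κ Φ C G) k

open Classical in
lemma hat_eq (n : ℕ) (xs : List Ordinal.{0}) : hat κ Φ C G n xs =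
    ccode κ C (fun ξ => if ev (In κ Φ G (hl κ Φ C G n)) ξ (dec κ Φ (xs.headD 0)) < (succ (succ κ)).ord then
      ev (In κ Φ G (hl κ Φ C G n)) ξ (dec κ Φ (xs.headD 0)) else 0) := by
  rw [hat]
  rfl

lemma In_eq {n k : ℕ} (h : k.unpair.1 < n) : In κ Φ G (hl κ Φ C G n) k = OO κ Φ C G k := by
  unfold OO In hl
  rw [dif_pos h]

lemma ev_stab (t : Tm κ) : ∃ N, ∀ n, N ≤ n → ∀ ξ,
    ev (In κ Φ G (hl κ Φ C G n)) ξ t = ev (OO κ Φ C G) ξ t := by
  induction t with
  | mk s f ih =>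
    match s, f, ih with
    | Sum.inl a, f, ih => exact ⟨0, fun n _ ξ => rfl⟩
    | Sum.inr (Sum.inl _), f, ih => exact ⟨0, fun n _ ξ => rfl⟩
    | Sum.inr (Sum.inr p), f, ih =>
      have ih' : ∀ j : Fin p.2, ∃ N, ∀ n, N ≤ n → ∀ ξ,
        ev (In κ Φ G (hl κ Φ C G n)) ξ (f j) = ev (OO κ Φ C G) ξ (f j) := ih
      choose N hN using ih'
      refine ⟨(Finset.univ.sup N) + p.1.unpair.1 + 1, ?_⟩
      intro n hn ξ
      show In κ Φ G (hl κ Φ C G n) p.1 (List.ofFn (fun j : Fin p.2 => ev (In κ Φ G (hl κ Φ C G n)) ξ (f j))) =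
        OO κ Φ C G p.1 (List.ofFn (fun j : Fin p.2 => ev (OO κ Φ C G) ξ (f j)))
      rw [In_eq κ Φ C G (by omega)]
      congr 1
      congr 1
      funext j
      apply hN
      have : N j ≤ Finset.univ.sup N := Finset.le_sup (Finset.mem_univ j)
      omega

/-- covering property -/
def Cv (κ : Cardinal.{0}) (C : Ordinal.{0} → Ordinal.{0} → Set Ordinal.{0}) : Prop :=
  ∀ f : Ordinal.{0} → Ordinal.{0}, (∀ ξ < (succ κ).ord, f ξ < (succ (succ κ)).ord) →
    ∃ i < (succ (succ κ)).ord, ∀ ξ < (succ κ).ord, f ξ ∈ C i ξ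

lemma pos2 (κ : Cardinal.{0}) : (0 : Ordinal.{0}) < (succ (succ κ)).ord := by
  rw [Cardinal.lt_ord]; simp

lemma ccode_lt (f : Ordinal.{0} → Ordinal.{0}) : ccode κ C f < (succ (succ κ)).ord := by
  unfold ccode
  split_ifs with h
  · exact (Classical.choose_spec h).1
  · exact pos2 κ

lemma ccode_mem (hC : Cv κ C) {f : Ordinal.{0} → Ordinal.{0}} (hf : ∀ ξ < (succ κ).ord, f ξ < (succ (succ κ)).ord)
    {ξ : Ordinal.{0}} (hξ : ξ < (succ κ).ord) : f ξ ∈ C (ccode κ C f) ξ := by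
  unfold ccode
  rw [dif_pos (hC f hf)]
  exact (Classical.choose_spec (hC f hf)).2 ξ hξ

lemma le23 (κ : Cardinal.{0}) : (succ (succ κ)).ord ≤ (succ (succ (succ κ))).ord :=
  Cardinal.ord_le_ord.2 (le_succ _)

lemma cm_good (hG : ∀ k, Good (succ (succ (succ κ))) (G k)) (a b : ℕ) :
    Good (succ (succ (succ κ))) (cm κ Φ G a b) := by
  intro xs hxs
  match a with
  | 0 => exact (pos2 κ).trans_le (le23 κ)
  | 1 => exact enc_lt κ Φ _
  | 2 => exact enc_lt κ Φ _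
  | 3 => exact hG _ xs hxs
  | (n+4) => exact enc_lt κ Φ _

lemma OO_good (hG : ∀ k, Good (succ (succ (succ κ))) (G k)) (k : ℕ) : Good (succ (succ (succ κ))) (OO κ Φ C G k) := by
  intro xs hxs
  unfold OO In
  split_ifs with h
  · rw [hat_eq]
    exact (ccode_lt κ C _).trans_le (le23 κ)
  · exact cm_good κ Φ G hG _ _ xs hxs

lemma ev_lt (hG : ∀ k, Good (succ (succ (succ κ))) (G k)) {ξ : Ordinal.{0}} (hξ : ξ < (succ κ).ord)
    (t : Tm κ) : ev (OO κ Φ C G) ξ t < (succ (succ (succ κ))).ord := by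
  induction t with
  | mk s f ih =>
    match s, f, ih with
    | Sum.inl a, f, ih => exact a.2
    | Sum.inr (Sum.inl _), f, ih => exact hξ.trans_le (Cardinal.ord_le_ord.2 (le3 κ))
    | Sum.inr (Sum.inr p), f, ih =>
      have ih' : ∀ j : Fin p.2, ev (OO κ Φ C G) ξ (f j) < (succ (succ (succ κ))).ord := ih
      show OO κ Φ C G p.1 (List.ofFn (fun j : Fin p.2 => ev (OO κ Φ C G) ξ (f j))) < _
      apply OO_good κ Φ C G hG
      intro a ha
      obtain ⟨j, rfl⟩ := (List.mem_ofFn' _ _).1 ha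
      exact ih' j

/-- index of an operation -/
def ix (n a b : ℕ) : ℕ := Nat.pair n (Nat.pair a b)

lemma OO_ix (n a b : ℕ) (ha : a ≠ 0) : OO κ Φ C G (ix n a b) = cm κ Φ G a b := by
  unfold OO In ix
  simp [ha]

lemma OO_hat (n : ℕ) : OO κ Φ C G (ix n 0 0) = hat κ Φ C G n := by
  unfold OO In ix
  simp

theorem sys (hC : Cv κ C) (hG : ∀ k, Good (succ (succ (succ κ))) (G k)) :
    Sys κ C (fun x ξ => ev (OO κ Φ C G) ξ (dec κ Φ x)) (OO κ Φ C G) where
  lt := fun x ξ hξ => ev_lt κ Φ C G hG hξ _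
  cst := by
    refine ⟨ix 0 1 0, ?_⟩
    intro a ha ξ _
    rw [OO_ix κ Φ C G _ _ _ (by norm_num)]
    show ev (OO κ Φ C G) ξ (dec κ Φ (enc κ Φ (clip3 κ a))) = a
    rw [dec_enc]
    unfold clip3
    rw [dif_pos ha]
    rfl
  var := by
    refine ⟨ix 0 2 0, ?_⟩
    intro ξ _
    rw [OO_ix κ Φ C G _ _ _ (by norm_num)]
    show ev (OO κ Φ C G) ξ (dec κ Φ (enc κ Φ tv)) = ξ
    rw [dec_enc]
    rfl
  app := by
    intro k
    refine ⟨ix 0 4 k, ?_⟩
    intro xs ξ _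
    rw [OO_ix κ Φ C G _ _ _ (by norm_num)]
    show ev (OO κ Φ C G) ξ (dec κ Φ (enc κ Φ (ta k xs.length (fun j => dec κ Φ (xs.get j))))) = _
    rw [dec_enc]
    show OO κ Φ C G k (List.ofFn (fun j : Fin xs.length => ev (OO κ Φ C G) ξ (dec κ Φ (xs.get j)))) = _
    congr 1
    conv_rhs => rw [← List.ofFn_get xs]
    rw [List.map_ofFn]
    rfl
  cov := by
    classical
    intro x
    obtain ⟨N, hN⟩ := ev_stab κ Φ C G (dec κ Φ x)
    refine ⟨ix N 0 0, ?_, ?_⟩
    · rw [OO_hat, hat_eq]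
      exact ccode_lt κ C _
    · intro ξ hξ hlt
      rw [OO_hat, hat_eq]
      have h1 : (fun ξ => if ev (In κ Φ G (hl κ Φ C G N)) ξ (dec κ Φ (([x] : List Ordinal.{0}).headD 0)) <
          (succ (succ κ)).ord then
          ev (In κ Φ G (hl κ Φ C G N)) ξ (dec κ Φ (([x] : List Ordinal.{0}).headD 0)) else 0) =
          (fun ξ => if ev (OO κ Φ C G) ξ (dec κ Φ x) < (succ (succ κ)).ord then
            ev (OO κ Φ C G) ξ (dec κ Φ x) else 0) := by
        funext ξ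
        show (if ev (In κ Φ G (hl κ Φ C G N)) ξ (dec κ Φ x) < (succ (succ κ)).ord then
          ev (In κ Φ G (hl κ Φ C G N)) ξ (dec κ Φ x) else 0) = _
        rw [hN N le_rfl ξ]
      rw [h1]
      have h2 := ccode_mem κ C hC (f := fun ξ => if ev (OO κ Φ C G) ξ (dec κ Φ x) < (succ (succ κ)).ord then
            ev (OO κ Φ C G) ξ (dec κ Φ x) else 0) (by
              intro ξ _
              split_ifs with h3
              · exact h3
              · exact pos2 κ) hξ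
      rw [if_pos hlt] at h2
      exact h2

end

/-- the core, with a covering family instead of `2 ^ κ⁺ = κ⁺⁺` -/
theorem core1 (κ : Cardinal.{0}) (hκ : ℵ₀ ≤ κ) (C : Ordinal.{0} → Ordinal.{0} → Set Ordinal.{0})
    (hS : Sm κ C) (hC : Cv κ C)
    (H : ∀ G : ℕ → List Ordinal.{0} → Ordinal.{0}, (∀ k, Good (succ (succ (succ κ))) (G k)) →
      ∃ X, Ch κ X ∧ ∀ k xs, (∀ a ∈ xs, a ∈ X) → G k xs ∈ X)
    (G : ℕ → List Ordinal.{0} → Ordinal.{0}) (hG : ∀ k, Good (succ (succ (succ κ))) (G k))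
    (μ : Cardinal.{0}) (hμ : μ.IsRegular) (hμκ : μ ≤ κ) :
    ∃ X, Ch κ X ∧ (∀ k xs, (∀ a ∈ xs, a ∈ X) → G k xs ∈ X) ∧
      (sSup (X ∩ Iio (succ κ).ord)).cof = μ := by
  obtain ⟨Φ⟩ := tm_card κ hκ
  obtain ⟨X0, hX0, hc⟩ := H (OO κ Φ C G) (OO_good κ Φ C G hG)
  have h0 : Iv κ (OO κ Φ C G) X0 := ⟨hX0, hc⟩
  have hsys := sys κ Φ C G hC hG
  have hfin := Y_iv hκ hS hsys h0 μ.ord (Cardinal.ord_le_ord.2 hμκ)
  refine ⟨_, hfin.ch, ?_, Y_cof1 hκ hS hsys h0 hμ hμκ⟩
  intro k xs hxs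
  have := hfin.cl (ix 0 3 k) xs hxs
  rwa [OO_ix κ Φ C G _ _ _ (by norm_num)] at this

end

end Pool.Agent.TH527.CS
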