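import Mathlib
import Pool.Agent.TH527.CS.F
import Pool.Agent.TH527.CS.D

set_option autoImplicit false

namespace Pool.Agent.TH527.CS

open Cardinal Ordinal Set Order

noncomputable section

/-- a dominating family of `κ⁺⁺` functions from `κ⁺` to `κ⁺` gives a covering family -/
theorem cover_of_dom (κ : Cardinal.{0}) (hκ : ℵ₀ ≤ κ) (D : Ordinal.{0} → Ordinal.{0} → Ordinal.{0})
    (hD1 : ∀ i < (succ (succ κ)).ord, ∀ ξ < (succ κ).ord, D i ξ < (succ κ).ord)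
    (hD2 : ∀ f : Ordinal.{0} → Ordinal.{0}, (∀ ξ < (succ κ).ord, f ξ < (succ κ).ord) →
      ∃ i < (succ (succ κ)).ord, ∃ β < (succ κ).ord, ∀ ξ, β ≤ ξ → ξ < (succ κ).ord → f ξ ≤ D i ξ) :
    ∃ C : Ordinal.{0} → Ordinal.{0} → Set Ordinal.{0}, Sm κ C ∧ Cv κ C := by
  classical
  have hκ1 : ℵ₀ ≤ succ κ := hκ.trans (le_succ κ)
  have hκ2 : ℵ₀ ≤ succ (succ κ) := hκ1.trans (le_succ _)
  have hreg1 : (succ κ).IsRegular := isRegular_succ hκ
  have hreg2 : (succ (succ κ)).IsRegular := isRegular_succ hκ1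
  have hlim1 : IsSuccLimit (succ κ).ord := isSuccLimit_ord hκ1
  have hlim2 : IsSuccLimit (succ (succ κ)).ord := isSuccLimit_ord hκ2
  have hj : ∀ α : Ordinal.{0}, α < (succ (succ κ)).ord → ∃ j : Ordinal.{0} → Ordinal.{0},
      (∀ y < α, j y < (succ κ).ord) ∧ ∀ y < α, ∀ y' < α, j y = j y' → y = y' := by
    intro α hα
    have h1 : #(Iio α) ≤ #(Iio (succ κ).ord) := by
      rw [Cardinal.mk_Iio_ordinal, Cardinal.mk_Iio_ordinal, card_ord]
      apply Cardinal.lift_le.2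
      exact lt_succ_iff.1 (Cardinal.lt_ord.1 hα)
    obtain ⟨φ⟩ := h1
    refine ⟨fun y => if h : y < α then (φ ⟨y, h⟩).1 else 0, ?_, ?_⟩
    · intro y hy
      dsimp only
      rw [dif_pos hy]
      exact (φ ⟨y, hy⟩).2
    · intro y hy y' hy' h
      dsimp only at h
      rw [dif_pos hy, dif_pos hy'] at h
      have := φ.injective (Subtype.ext h)
      exact congrArg Subtype.val this
  choose! j hj1 hj2 using hj
  have hΨ : #(Iio (succ (succ κ)).ord × Iio (succ (succ κ)).ord × Iio (succ κ).ord) ≤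
      #(Iio (succ (succ κ)).ord) := by
    rw [Cardinal.mk_prod, Cardinal.mk_prod, Cardinal.mk_Iio_ordinal, Cardinal.mk_Iio_ordinal, card_ord, card_ord]
    simp only [Cardinal.lift_id]
    have h2 : ℵ₀ ≤ Cardinal.lift.{1} (succ (succ κ)) := by rw [Cardinal.aleph0_le_lift]; exact hκ2
    have h3 : Cardinal.lift.{1} (succ κ) ≤ Cardinal.lift.{1} (succ (succ κ)) := Cardinal.lift_le.2 (le_succ _)
    calc Cardinal.lift.{1} (succ (succ κ)) * (Cardinal.lift.{1} (succ (succ κ)) * Cardinal.lift.{1} (succ κ))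
        ≤ Cardinal.lift.{1} (succ (succ κ)) * (Cardinal.lift.{1} (succ (succ κ)) * Cardinal.lift.{1} (succ (succ κ))) := by
          gcongr
      _ = Cardinal.lift.{1} (succ (succ κ)) := by rw [Cardinal.mul_eq_self h2, Cardinal.mul_eq_self h2]
  obtain ⟨Ψ⟩ := hΨ
  refine ⟨fun i ξ => {y | ∃ p : Iio (succ (succ κ)).ord × Iio (succ (succ κ)).ord × Iio (succ κ).ord,
    (Ψ p).1 = i ∧ y < p.1.1 ∧ j p.1.1 y ≤ max (D p.2.1.1 ξ) p.2.2.1}, ?_, ?_⟩
  · intro i ξ hξ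
    by_cases hp : ∃ p : Iio (succ (succ κ)).ord × Iio (succ (succ κ)).ord × Iio (succ κ).ord, (Ψ p).1 = i
    · obtain ⟨p, hp⟩ := hp
      set M := max (D p.2.1.1 ξ) p.2.2.1 with hM
      have hM1 : Order.succ M < (succ κ).ord := hlim1.succ_lt (max_lt (hD1 _ p.2.1.2 ξ hξ) p.2.2.2)
      have key : ∀ y ∈ {y | ∃ p : Iio (succ (succ κ)).ord × Iio (succ (succ κ)).ord × Iio (succ κ).ord,
          (Ψ p).1 = i ∧ y < p.1.1 ∧ j p.1.1 y ≤ max (D p.2.1.1 ξ) p.2.2.1},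
          y < p.1.1 ∧ j p.1.1 y < Order.succ M := by
        rintro y ⟨q, hq, h1, h2⟩
        have : q = p := Ψ.injective (Subtype.ext (hq.trans hp.symm))
        subst this
        exact ⟨h1, Order.lt_succ_of_le h2⟩
      have h4 : #{y | ∃ p : Iio (succ (succ κ)).ord × Iio (succ (succ κ)).ord × Iio (succ κ).ord,
          (Ψ p).1 = i ∧ y < p.1.1 ∧ j p.1.1 y ≤ max (D p.2.1.1 ξ) p.2.2.1} ≤ #(Iio (Order.succ M)) := by
        refine Cardinal.mk_le_of_injective (f := fun y => ⟨j p.1.1 y.1, (key y.1 y.2).2⟩) ?_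
        intro a b hab
        have h5 : j p.1.1 a.1 = j p.1.1 b.1 := congrArg Subtype.val hab
        exact Subtype.ext (hj2 _ p.1.2 _ (key a.1 a.2).1 _ (key b.1 b.2).1 h5)
      refine h4.trans ?_
      rw [Cardinal.mk_Iio_ordinal]
      apply Cardinal.lift_le.2
      exact lt_succ_iff.1 (Cardinal.lt_ord.1 hM1)
    · have h6 : {y | ∃ p : Iio (succ (succ κ)).ord × Iio (succ (succ κ)).ord × Iio (succ κ).ord,
          (Ψ p).1 = i ∧ y < p.1.1 ∧ j p.1.1 y ≤ max (D p.2.1.1 ξ) p.2.2.1} = ∅ := by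
        ext y
        simp only [mem_ofPred_eq, mem_empty_iff_false, iff_false]
        rintro ⟨p, h, _⟩
        exact hp ⟨p, h⟩
      show #({y | ∃ p : Iio (succ (succ κ)).ord × Iio (succ (succ κ)).ord × Iio (succ κ).ord,
          (Ψ p).1 = i ∧ y < p.1.1 ∧ j p.1.1 y ≤ max (D p.2.1.1 ξ) p.2.2.1} : Set Ordinal.{0}) ≤ _
      rw [h6]
      simp
  · intro f hf
    have hb : BddAbove (f '' Iio (succ κ).ord) :=
      ⟨(succ (succ κ)).ord, by rintro _ ⟨ξ, hξ, rfl⟩; exact (hf ξ hξ).le⟩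
    have hα : Order.succ (sSup (f '' Iio (succ κ).ord)) < (succ (succ κ)).ord := by
      apply hlim2.succ_lt
      apply sSup_lt_of_lt_cof
      · rw [← Ordinal.lift_cof, hreg2.cof_ord]
        refine mk_image_le.trans_lt ?_
        rw [Cardinal.mk_Iio_ordinal, card_ord, Cardinal.lift_lt]
        exact lt_succ _
      · rintro _ ⟨ξ, hξ, rfl⟩
        exact hf ξ hξ
    set α := Order.succ (sSup (f '' Iio (succ κ).ord)) with hαdef
    have hfα : ∀ ξ < (succ κ).ord, f ξ < α := fun ξ hξ => Order.lt_succ_of_le (le_csSup hb ⟨ξ, hξ, rfl⟩)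
    obtain ⟨i', hi', β, hβ, hdom⟩ := hD2 (fun ξ => j α (f ξ)) (fun ξ hξ => hj1 α hα _ (hfα ξ hξ))
    have hb2 : BddAbove ((fun ξ => j α (f ξ)) '' Iio β) :=
      ⟨(succ κ).ord, by rintro _ ⟨ξ, hξ, rfl⟩; exact (hj1 α hα _ (hfα ξ (lt_trans hξ hβ))).le⟩
    have hγ : sSup ((fun ξ => j α (f ξ)) '' Iio β) < (succ κ).ord := by
      apply sSup_lt_of_lt_cof
      · rw [← Ordinal.lift_cof, hreg1.cof_ord]
        refine mk_image_le.trans_lt ?_
        rw [Cardinal.mk_Iio_ordinal, Cardinal.lift_lt]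
        exact Cardinal.lt_ord.1 hβ
      · rintro _ ⟨ξ, hξ, rfl⟩
        exact hj1 α hα _ (hfα ξ (lt_trans hξ hβ))
    refine ⟨(Ψ (⟨α, hα⟩, ⟨i', hi'⟩, ⟨_, hγ⟩)).1, (Ψ (⟨α, hα⟩, ⟨i', hi'⟩, ⟨_, hγ⟩)).2, ?_⟩
    intro ξ hξ
    refine ⟨(⟨α, hα⟩, ⟨i', hi'⟩, ⟨_, hγ⟩), rfl, hfα ξ hξ, ?_⟩
    rcases lt_or_ge ξ β with h | h
    · exact le_max_of_le_right (le_csSup hb2 ⟨ξ, h, rfl⟩)
    · exact le_max_of_le_left (hdom ξ h hξ)

/-- `2 ^ κ⁺ ≤ κ⁺⁺` gives a dominating family -/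
theorem dom_of_pow (κ : Cardinal.{0}) (hκ : ℵ₀ ≤ κ) (hp : 2 ^ succ κ ≤ succ (succ κ)) :
    ∃ D : Ordinal.{0} → Ordinal.{0} → Ordinal.{0},
      (∀ i < (succ (succ κ)).ord, ∀ ξ < (succ κ).ord, D i ξ < (succ κ).ord) ∧
      ∀ f : Ordinal.{0} → Ordinal.{0}, (∀ ξ < (succ κ).ord, f ξ < (succ κ).ord) →
        ∃ i < (succ (succ κ)).ord, ∃ β < (succ κ).ord, ∀ ξ, β ≤ ξ → ξ < (succ κ).ord → f ξ ≤ D i ξ := by
  classical
  have h0 : (0 : Ordinal.{0}) < (succ κ).ord := by rw [Cardinal.lt_ord]; simp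
  obtain ⟨e, he1, he2⟩ := exists_code (succ κ) (succ (succ κ))
    (lt_of_le_of_lt zero_le (lt_succ _)) (pow_two κ hκ hp)
  refine ⟨fun i ξ => if e i ξ < (succ κ).ord then e i ξ else 0, ?_, ?_⟩
  · intro i _ ξ _
    dsimp only
    split_ifs with h
    · exact h
    · exact h0
  · intro f hf
    obtain ⟨i, hi, h⟩ := he2 f (fun ξ hξ => (hf ξ hξ).trans_le (Cardinal.ord_le_ord.2 (le_succ _)))
    refine ⟨i, hi, 0, h0, ?_⟩
    intro ξ _ hξ
    dsimp only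
    rw [h ξ hξ, if_pos (hf ξ hξ)]

/-- main theorem -/
theorem main1 (κ : Cardinal.{0}) (hκ : ℵ₀ < κ)
    (hdom : 2 ^ succ κ ≤ succ (succ κ) ∨ ∃ D : Ordinal.{0} → Ordinal.{0} → Ordinal.{0},
      (∀ i < (succ (succ κ)).ord, ∀ ξ < (succ κ).ord, D i ξ < (succ κ).ord) ∧
      ∀ f : Ordinal.{0} → Ordinal.{0}, (∀ ξ < (succ κ).ord, f ξ < (succ κ).ord) →
        ∃ i < (succ (succ κ)).ord, ∃ β < (succ κ).ord, ∀ ξ, β ≤ ξ → ξ < (succ κ).ord → f ξ ≤ D i ξ)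
    (H : ∀ f : Finset Ordinal.{0} → Ordinal.{0},
        (∀ s : Finset Ordinal.{0}, (∀ a ∈ s, a < (succ (succ (succ κ))).ord) →
            f s < (succ (succ (succ κ))).ord) →
        ∃ X : Set Ordinal.{0},
          X ⊆ Set.Iio (succ (succ (succ κ))).ord ∧
          (∀ s : Finset Ordinal.{0}, (∀ a ∈ s, a ∈ X) → f s ∈ X) ∧
          Cardinal.mk X = Cardinal.lift.{1} (succ κ) ∧
          Cardinal.mk ↥(X ∩ Set.Iio (succ (succ κ)).ord) = Cardinal.lift.{1} κ ∧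
          Set.Iio κ.ord ⊆ X)
    (μ : Cardinal.{0}) (hμ : μ.IsRegular) (hμκ : μ ≤ κ)
    (f : Finset Ordinal.{0} → Ordinal.{0})
    (hf : ∀ s : Finset Ordinal.{0}, (∀ a ∈ s, a < (succ (succ (succ κ))).ord) →
            f s < (succ (succ (succ κ))).ord) :
        ∃ X : Set Ordinal.{0},
          X ⊆ Set.Iio (succ (succ (succ κ))).ord ∧
          (∀ s : Finset Ordinal.{0}, (∀ a ∈ s, a ∈ X) → f s ∈ X) ∧
          Cardinal.mk X = Cardinal.lift.{1} (succ κ) ∧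
          Cardinal.mk ↥(X ∩ Set.Iio (succ (succ κ)).ord) = Cardinal.lift.{1} κ ∧
          Set.Iio κ.ord ⊆ X ∧
          (sSup (X ∩ Set.Iio (succ κ).ord)).cof = μ := by
  classical
  obtain ⟨D, hD1, hD2⟩ := hdom.elim (dom_of_pow κ hκ.le) id
  obtain ⟨C, hS, hC⟩ := cover_of_dom κ hκ.le D hD1 hD2
  have h3 : ℵ₀ < succ (succ (succ κ)) := hκ.trans ((lt_succ κ).trans ((lt_succ _).trans (lt_succ _)))
  obtain ⟨X, hX, hcl, hcof⟩ := core1 κ hκ.le C hS hC (fun G hG => by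
      obtain ⟨X, h1, h2, h4, h5, h6⟩ := H (fF G) (fF_good h3 G hG)
      exact ⟨X, ⟨h1, h4.ge, h4.le, h5.le, h6⟩, fun k xs hxs => fF_closed hκ G X h6 h2 k xs hxs⟩)
    (fun _ xs => f xs.toFinset) (fun _ xs hxs => hf _ (fun a ha => hxs a (List.mem_toFinset.1 ha))) μ hμ hμκ
  refine ⟨X, hX.sub, ?_, le_antisymm hX.le hX.ge, le_antisymm hX.le2 ?_, hX.kap, hcof⟩
  · intro s hs
    have := hcl 0 s.toList (fun a ha => hs a (Finset.mem_toList.1 ha))
    simpa using this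
  · have h7 : Iio κ.ord ⊆ X ∩ Iio (succ (succ κ)).ord := by
      intro a ha
      exact ⟨hX.kap ha, lt_of_lt_of_le ha (Cardinal.ord_le_ord.2 ((le_succ _).trans (le_succ _)))⟩
    have h8 := mk_le_mk_of_subset h7
    rwa [Cardinal.mk_Iio_ordinal, card_ord] at h8

end

end Pool.Agent.TH527.CS
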