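import Mathlib
import Pool.Agent.TH527.CS.Gd

set_option autoImplicit false

namespace Pool.Agent.Results.MP_6bbf11_lc.TraceCofinalities

/-- Let `κ` be uncountable and suppose `2 ^ κ⁺ ≤ κ⁺⁺`, or only that some family of `κ⁺⁺` functions from `κ⁺` to
`κ⁺` dominates all such functions (each from some point on).  If every finitary function on `κ⁺⁺⁺` has a closed
Chang set, then for every regular `μ ≤ κ` every finitary function on `κ⁺⁺⁺` has a closed Chang set `X` for which
the supremum of `X ∩ κ⁺` has cofinality exactly `μ`. -/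
theorem result (κ : Cardinal.{0}) (hκ : Cardinal.aleph0 < κ)
    (hdom : 2 ^ Order.succ κ ≤ Order.succ (Order.succ κ) ∨
      ∃ D : Ordinal.{0} → Ordinal.{0} → Ordinal.{0},
        (∀ i < (Order.succ (Order.succ κ)).ord, ∀ ξ < (Order.succ κ).ord, D i ξ < (Order.succ κ).ord) ∧
        ∀ g : Ordinal.{0} → Ordinal.{0}, (∀ ξ < (Order.succ κ).ord, g ξ < (Order.succ κ).ord) →
          ∃ i < (Order.succ (Order.succ κ)).ord, ∃ β < (Order.succ κ).ord,
            ∀ ξ, β ≤ ξ → ξ < (Order.succ κ).ord → g ξ ≤ D i ξ)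
    (hchang : ∀ f : Finset Ordinal.{0} → Ordinal.{0},
        (∀ s : Finset Ordinal.{0},
          (∀ a ∈ s, a < (Order.succ (Order.succ (Order.succ κ))).ord) →
            f s < (Order.succ (Order.succ (Order.succ κ))).ord) →
        ∃ X : Set Ordinal.{0},
          X ⊆ Set.Iio (Order.succ (Order.succ (Order.succ κ))).ord ∧
          (∀ s : Finset Ordinal.{0}, (∀ a ∈ s, a ∈ X) → f s ∈ X) ∧
          Cardinal.mk X = Cardinal.lift.{1} (Order.succ κ) ∧
          Cardinal.mk ↥(X ∩ Set.Iio (Order.succ (Order.succ κ)).ord) = Cardinal.lift.{1} κ ∧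
          Set.Iio κ.ord ⊆ X) :
    ∀ μ : Cardinal.{0}, μ.IsRegular → μ ≤ κ →
      ∀ f : Finset Ordinal.{0} → Ordinal.{0},
        (∀ s : Finset Ordinal.{0},
          (∀ a ∈ s, a < (Order.succ (Order.succ (Order.succ κ))).ord) →
            f s < (Order.succ (Order.succ (Order.succ κ))).ord) →
        ∃ X : Set Ordinal.{0},
          X ⊆ Set.Iio (Order.succ (Order.succ (Order.succ κ))).ord ∧
          (∀ s : Finset Ordinal.{0}, (∀ a ∈ s, a ∈ X) → f s ∈ X) ∧
          Cardinal.mk X = Cardinal.lift.{1} (Order.succ κ) ∧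
          Cardinal.mk ↥(X ∩ Set.Iio (Order.succ (Order.succ κ)).ord) = Cardinal.lift.{1} κ ∧
          Set.Iio κ.ord ⊆ X ∧
          (sSup (X ∩ Set.Iio (Order.succ κ).ord)).cof = μ :=
  fun μ hμ hμκ f hf => Pool.Agent.TH527.CS.main1 κ hκ hdom hchang μ hμ hμκ f hf

end Pool.Agent.Results.MP_6bbf11_lc.TraceCofinalities
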